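import Pool.Agent.Helper87.HQ.St

/-! Project HQ, module C6. -/

set_option autoImplicit false

namespace Pool.Agent.Helper11.HQ

open Pool.Agent.Helper87.HQ
open Set MvPolynomial

private lemma exists_N (G : MetricGraph) (κ : ℝ) (hκ : 0 < κ) :
    ∃ N : ℕ, 0 < N ∧ ∀ f : G.E, κ * (G.len f / N) < Real.pi / 2 := by
  obtain ⟨N, hN⟩ := exists_nat_gt (∑ f : G.E, κ * G.len f / (Real.pi / 2))
  refine ⟨N + 1, Nat.succ_pos _, fun f => ?_⟩
  have hpi : 0 < Real.pi / 2 := by positivity
  have h1 : κ * G.len f / (Real.pi / 2) ≤ ∑ f : G.E, κ * G.len f / (Real.pi / 2) :=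
    Finset.single_le_sum (f := fun f => κ * G.len f / (Real.pi / 2))
      (fun g _ => by have := G.len_pos g; positivity) (Finset.mem_univ f)
  have h2 : κ * G.len f / (Real.pi / 2) < N := lt_of_le_of_lt h1 hN
  rw [div_lt_iff₀ hpi] at h2
  push_cast
  rw [← mul_div_assoc, div_lt_iff₀ (by positivity)]
  nlinarith

private lemma cover (N : ℕ) (hN : 0 < N) (L : ℝ) (hL : 0 < L) (y : ℝ) (h0 : 0 ≤ y)
    (h1 : y < L) :
    ∃ j : Fin N, y ∈ Icc (((j : ℕ) : ℝ) * L / N) ((((j : ℕ) : ℝ) + 1) * L / N) := by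
  have hN' : (0 : ℝ) < N := by exact_mod_cast hN
  have hj : ⌊y * N / L⌋₊ < N := by
    rw [Nat.floor_lt (by positivity), div_lt_iff₀ hL]
    nlinarith
  refine ⟨⟨⌊y * N / L⌋₊, hj⟩, ?_, ?_⟩
  · have := Nat.floor_le (a := y * N / L) (by positivity)
    rw [le_div_iff₀ hL] at this
    rw [div_le_iff₀ hN']
    exact this
  · have := Nat.lt_floor_add_one (y * N / L)
    rw [div_lt_iff₀ hL] at this
    rw [le_div_iff₀ hN']
    exact this.le

/-- the intervals of the partition of an edge are contained in the edge and have length `L/N` -/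
private lemma part (N : ℕ) (hN : 0 < N) (L : ℝ) (hL : 0 < L) (j : Fin N) :
    0 ≤ ((j : ℕ) : ℝ) * L / N ∧ (((j : ℕ) : ℝ) + 1) * L / N ≤ L ∧
      (((j : ℕ) : ℝ) + 1) * L / N - ((j : ℕ) : ℝ) * L / N = L / N ∧
      ((j : ℕ) : ℝ) * L / N < (((j : ℕ) : ℝ) + 1) * L / N := by
  have hN' : (0 : ℝ) < N := by exact_mod_cast hN
  have hj : ((j : ℕ) : ℝ) + 1 ≤ N := by exact_mod_cast j.2
  have h3 : (((j : ℕ) : ℝ) + 1) * L / N - ((j : ℕ) : ℝ) * L / N = L / N := by ring
  refine ⟨by positivity, ?_, h3, ?_⟩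
  · rw [div_le_iff₀ hN']
    nlinarith
  · have : 0 < L / N := by positivity
    linarith

/-- C6. -/
theorem hC6 : StC6 := by
  intro hPB hC3 hC4 G α κ e hκ hinf
  obtain ⟨N, hN, hlen⟩ := exists_N G κ hκ
  have hℓ := G.len_pos e
  have hpi := Real.pi_pos
  -- one of the intervals
  have hsub : Hp G α κ e ⊆ ⋃ j : Fin N, (Hp G α κ e ∩
      Icc (((j : ℕ) : ℝ) * G.len e / N) ((((j : ℕ) : ℝ) + 1) * G.len e / N)) := by
    intro x hx
    obtain ⟨j, hj⟩ := cover N hN (G.len e) hℓ x hx.1.1.le hx.1.2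
    exact mem_iUnion.2 ⟨j, hx, hj⟩
  have hex : ∃ j : Fin N, (Hp G α κ e ∩
      Icc (((j : ℕ) : ℝ) * G.len e / N) ((((j : ℕ) : ℝ) + 1) * G.len e / N)).Infinite := by
    by_contra hcon
    push Not at hcon
    exact hinf ((finite_iUnion hcon).subset hsub)
  obtain ⟨j, hj⟩ := hex
  obtain ⟨hp0, hqL, hqp, hpq⟩ := part N hN (G.len e) hℓ j
  set p := ((j : ℕ) : ℝ) * G.len e / N with hp
  set q := (((j : ℕ) : ℝ) + 1) * G.len e / N with hq
  have hκqp : κ * (q - p) < Real.pi / 2 := by rw [hqp]; exact hlen e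
  have hκqp0 : 0 < κ * (q - p) := mul_pos hκ (sub_pos.2 hpq)
  set r := Real.sin (κ * (q - p)) with hr
  -- the image of Zs is infinite
  have hmono : StrictMonoOn (fun x => Real.sin (κ * (x - p))) (Icc p q) := by
    intro x hx y hy hxy
    apply Real.strictMonoOn_sin
    · constructor
      · have : 0 ≤ κ * (x - p) := mul_nonneg hκ.le (sub_nonneg.2 hx.1)
        linarith
      · have : κ * (x - p) ≤ κ * (q - p) := mul_le_mul_of_nonneg_left (by linarith [hx.2]) hκ.le
        linarith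
    · constructor
      · have : 0 ≤ κ * (y - p) := mul_nonneg hκ.le (sub_nonneg.2 hy.1)
        linarith
      · have : κ * (y - p) ≤ κ * (q - p) := mul_le_mul_of_nonneg_left (by linarith [hy.2]) hκ.le
        linarith
    · exact mul_lt_mul_of_pos_left (by linarith) hκ
  have himg : ((fun x => Real.sin (κ * (x - p))) '' (Hp G α κ e ∩ Icc p q)).Infinite :=
    hj.image (hmono.injOn.mono inter_subset_right)
  have hsub2 : (fun x => Real.sin (κ * (x - p))) '' (Hp G α κ e ∩ Icc p q) ⊆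
      (fun z => eval z (X (Sum.inl false) : MvPolynomial (Var G) ℝ)) '' Zs G α κ N e p r := by
    rintro _ ⟨x, ⟨⟨hx, A, B, W, hSol, hA, hB, hfn⟩, hxpq⟩, rfl⟩
    have hx0 : 0 ≤ κ * (x - p) := mul_nonneg hκ.le (sub_nonneg.2 hxpq.1)
    have hx1 : κ * (x - p) ≤ κ * (q - p) :=
      mul_le_mul_of_nonneg_left (by linarith [hxpq.2]) hκ.le
    refine ⟨Sum.elim (fun b => cond b (Real.cos (κ * (x - p))) (Real.sin (κ * (x - p))))
      (Sum.elim A (Sum.elim B W)), ?_, by simp⟩
    have hS := hSol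
    refine ⟨?_, ?_, ?_, ?_, ?_, ?_, hSol, ?_, ?_⟩
    · exact Real.sin_nonneg_of_nonneg_of_le_pi hx0 (by linarith)
    · apply Real.sin_le_sin_of_le_of_le_pi_div_two <;> linarith
    · exact Real.cos_nonneg_of_neg_pi_div_two_le_of_le (by linarith) (by linarith)
    · exact Real.cos_sq_add_sin_sq _
    · show A e = Real.cos (κ * (x - p)) * Real.cos (κ * p) -
        Real.sin (κ * (x - p)) * Real.sin (κ * p)
      rw [hA, ← Real.cos_add]
      congr 1
      ring
    · show B e = Real.cos (κ * (x - p)) * Real.sin (κ * p) +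
        Real.sin (κ * (x - p)) * Real.cos (κ * p)
      rw [hB, add_comm, ← Real.sin_add]
      congr 1
      ring
    · intro v
      exact hfn (Sum.inl v)
    · intro f i
      obtain ⟨k1, k2, k3, k4⟩ := part N hN (G.len f) (G.len_pos f) i
      refine (hC3 κ (A f) (B f) _ _ hκ k4 ?_).1 ?_
      · rw [k3]
        have := hlen f
        linarith
      · intro y hy
        rcases eq_or_lt_of_le (k1.trans hy.1) with h0 | h0
        · rw [← h0]
          simp only [mul_zero, Real.cos_zero, Real.sin_zero, mul_one, add_zero]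
          rw [(hSol.1 f).1]
          exact hfn (Sum.inl (G.src f))
        rcases eq_or_lt_of_le (hy.2.trans k2) with h1 | h1
        · rw [h1, (hSol.1 f).2]
          exact hfn (Sum.inl (G.tgt f))
        · exact hfn (Sum.inr ⟨f, ⟨y, h0, h1⟩⟩)
  have hfin : Finite (Var G) := inferInstance
  obtain ⟨a, b, hab, hIoo⟩ := hPB (Var G) (Zs G α κ N e p r) (hC4 G α κ N e p r)
    (X (Sum.inl false)) (himg.mono hsub2)
  have hval : ∀ t ∈ Ioo a b, ∃ z ∈ Zs G α κ N e p r, z (Sum.inl false) = t := by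
    intro t ht
    obtain ⟨z, hz, hzt⟩ := hIoo ht
    exact ⟨z, hz, by simpa using hzt⟩
  -- smaller interval
  obtain ⟨a', ha1, ha2⟩ := exists_between hab
  obtain ⟨b', hb1, hb2⟩ := exists_between ha2
  have ha0 : 0 ≤ a' := by
    obtain ⟨z, hz, hzt⟩ := hval a' ⟨ha1, ha2⟩
    rw [← hzt]; exact hz.1
  have hbr : b' ≤ r := by
    obtain ⟨z, hz, hzt⟩ := hval b' ⟨ha1.trans hb1, hb2⟩
    rw [← hzt]; exact hz.2.1
  have hr1 : r ≤ 1 := Real.sin_le_one _
  have harc : Real.arcsin r = κ * (q - p) := by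
    rw [hr, Real.arcsin_sin] <;> linarith
  have harcb : Real.arcsin b' ≤ κ * (q - p) := by
    rw [← harc]; exact Real.monotone_arcsin hbr
  have harca : 0 ≤ Real.arcsin a' := Real.arcsin_nonneg.2 ha0
  have harcab : Real.arcsin a' < Real.arcsin b' :=
    Real.strictMonoOn_arcsin ⟨by linarith, by linarith⟩ ⟨by linarith, by linarith⟩ hb1
  refine ⟨p + Real.arcsin a' / κ, p + Real.arcsin b' / κ, ?_, ?_⟩
  · have := div_lt_div_of_pos_right harcab hκ
    linarith
  rintro x ⟨hxa, hxb⟩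
  have hxa' : Real.arcsin a' < κ * (x - p) := by
    have : Real.arcsin a' / κ < x - p := by linarith
    rw [div_lt_iff₀ hκ] at this
    linarith
  have hxb' : κ * (x - p) < Real.arcsin b' := by
    have : x - p < Real.arcsin b' / κ := by linarith
    rw [lt_div_iff₀ hκ] at this
    linarith
  have hx0 : 0 < κ * (x - p) := by linarith
  have hxp : p < x := by
    have := (pos_iff_pos_of_mul_pos hx0).1 hκ
    linarith
  have hxq : x < q := by
    have h5 : κ * (x - p) < κ * (q - p) := by linarith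
    have := lt_of_mul_lt_mul_left h5 hκ.le
    linarith
  have hs1 : a' < Real.sin (κ * (x - p)) := by
    have h := Real.strictMonoOn_sin (a := Real.arcsin a') (b := κ * (x - p))
      ⟨by linarith, by linarith⟩ ⟨by linarith, by linarith⟩ hxa'
    rwa [Real.sin_arcsin (by linarith) (by linarith)] at h
  have hs2 : Real.sin (κ * (x - p)) < b' := by
    have h := Real.strictMonoOn_sin (a := κ * (x - p)) (b := Real.arcsin b')
      ⟨by linarith, by linarith⟩ ⟨by linarith, by linarith⟩ hxb'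
    rwa [Real.sin_arcsin (by linarith) (by linarith)] at h
  obtain ⟨z, ⟨z1, z2, z3, z4, z5, z6, z7, z8, z9⟩, hzt⟩ :=
    hval (Real.sin (κ * (x - p))) ⟨by linarith, by linarith⟩
  have hcos0 : 0 ≤ Real.cos (κ * (x - p)) :=
    Real.cos_nonneg_of_neg_pi_div_two_le_of_le (by linarith) (by linarith)
  have hc : z (Sum.inl true) = Real.cos (κ * (x - p)) := by
    rw [hzt] at z4
    have h6 := Real.cos_sq_add_sin_sq (κ * (x - p))
    have h7 : z (Sum.inl true) ^ 2 = Real.cos (κ * (x - p)) ^ 2 := by linarith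
    exact (sq_eq_sq₀ z3 hcos0).1 h7
  refine ⟨⟨by linarith, by linarith⟩, _, _, _, z7, ?_, ?_, ?_⟩
  · show z (Sum.inr (Sum.inl e)) = _
    rw [z5, hc, hzt, ← Real.cos_add]
    congr 1
    ring
  · show z (Sum.inr (Sum.inr (Sum.inl e))) = _
    rw [z6, hc, hzt, add_comm, ← Real.sin_add]
    congr 1
    ring
  · rintro (v | ⟨f, y, hy⟩)
    · exact z8 v
    · obtain ⟨i, hi⟩ := cover N hN (G.len f) (G.len_pos f) y hy.1.le hy.2
      obtain ⟨k1, k2, k3, k4⟩ := part N hN (G.len f) (G.len_pos f) i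
      refine (hC3 κ _ _ _ _ hκ k4 ?_).2 (z9 f i) y hi
      rw [k3]
      have := hlen f
      linarith

end Pool.Agent.Helper11.HQ
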